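import Pool.Agent.W165.OZ.Fin

set_option autoImplicit false

namespace Pool.Agent.Results.MP_c2395a_nt.SqrtLogLog

/-- **Many irrational odd zeta values.** There are `c > 0` and `s₀` such that for every `s ≥ s₀` at least
`c √(s log log s / log s)` of the odd `i`, `3 ≤ i ≤ s`, have an irrational `ζ(i) = ∑ 1/(n+1)^i`. -/
theorem result : ∃ c : ℝ, 0 < c ∧ ∃ s0 : ℕ, ∀ s ≥ s0,
    c * Real.sqrt (s * Real.log (Real.log s) / Real.log s) ≤
      (Set.ncard {i : ℕ | 3 ≤ i ∧ i ≤ s ∧ Odd i ∧ Irrational (∑' n : ℕ, 1 / ((n : ℝ) + 1) ^ i)} : ℝ) :=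
  Pool.Agent.W165.OZ.z_final

end Pool.Agent.Results.MP_c2395a_nt.SqrtLogLog
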