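import Mathlib
import Pool.Agent.W245.BR.QChain
import Pool.Agent.W245.BR.Zdim

set_option autoImplicit false

/-!
# An infinite-dimensional space of combinations of odd zeta values of growing transcendence type
-/

namespace Pool.Agent.Results.MP_c2395a_nt.TranscendentalDegreeSubspaces

open Module MvPolynomial Pool.Agent.W245.BR Pool.Agent.W245.EB

/-- Let `v` be any sequence of complex numbers.  There are integral combinations
`t i` of the odd zeta values `ζ(2j+3)`, `j ≥ i`, linearly independent over `ℚ`, such that for every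
`D` all `ℚ`-linearly independent elements `x 1, …, x k` of the space spanned by the `t i`, `i ≥ D`,
satisfy no nonzero polynomial relation of total degree at most `D` with coefficients in the
`ℚ`-space spanned by `v 0, …, v D`. -/
theorem result (v : ℕ → ℂ) : ∃ t : ℕ → ℂ,
    (∀ i, t i ∈ AddSubgroup.closure {z : ℂ | ∃ j : ℕ, i ≤ j ∧ z = riemannZeta (2 * (j : ℂ) + 3)}) ∧
    LinearIndependent ℚ t ∧
    ∀ (D k : ℕ) (x : Fin k → ℂ), (∀ i, x i ∈ Submodule.span ℚ (t '' Set.Ici D)) →
      LinearIndependent ℚ x → ∀ Q : MvPolynomial (Fin k) ℂ, Q.totalDegree ≤ D →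
        (∀ e, Q.coeff e ∈ Submodule.span ℚ (v '' Set.Iic D)) → eval x Q = 0 → Q = 0 := by
  obtain ⟨c⟩ := exists_qchain
    (fun i => (AddSubgroup.closure {z : ℂ | ∃ j : ℕ, i ≤ j ∧ z = oz j} : Set ℂ))
    (fun i => Submodule.span ℚ (v '' Set.Iic i))
    (fun i => FiniteDimensional.span_of_finite ℚ ((Set.finite_Iic i).image v))
    (fun i D U hU => exists_of_rankQ _ (fun R => zeta_tail i R) D U hU)
  refine ⟨c.t, c.ht, c.indep, fun D k x hx hi Q hQ1 hQ2 hQ3 => ?_⟩
  exact c.nr_top D k x hx hi Q hQ1 (fun e => c.le_pow D _ (by omega) (c.hV D (hQ2 e))) hQ3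

end Pool.Agent.Results.MP_c2395a_nt.TranscendentalDegreeSubspaces
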